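import Pool.Agent.Lib.MP_954e53_ag.GenGor

/-! The a-invariant of the ring of invariants of the cone. -/

namespace Pool.Agent.Lib.MP_954e53_ag.Gen

universe u

variable {𝕜 : Type u} [Field 𝕜] [IsAlgClosed 𝕜] [CharZero 𝕜]

open MvPolynomial

variable {c d : ℕ} {G : Type} [Group G] {ρ : G →* Matrix (Fin c ⊕ Fin d) (Fin c ⊕ Fin d) 𝕜}
  {F : Fin c ⊕ Fin d → MvPolynomial (Fin c ⊕ Fin d) 𝕜}

/-- The index is determined by the number of variables and of equations. -/
theorem inv_gorenstein_index [Finite G] (h : GroupData ρ c) (hF : CIData ρ F) (hp : Params F)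
    {r : ℕ} (hd : d = 7 * c + 4 * r) : GorensteinOfIndex (invGr ρ F) d r := by
  classical
  have := Fintype.ofFinite G
  obtain ⟨g₀, ζ, hζ, hg₀⟩ := h.scalar
  obtain ⟨n, hn⟩ : 4 ∣ c + d := ⟨2 * c + r, by omega⟩
  set θ : Fin d → invRing ρ F := fun k => c3cls F (F (.inr k)) fun g => hF.inv g _ with hθ
  have hall : ∀ (y : invRing ρ F) (f : MvPolynomial (Fin c ⊕ Fin d) 𝕜), (∀ g, act (ρ g) f = f) →
      Ideal.Quotient.mk (eqIdeal F) f = y →
      (y ∈ Ideal.span (Set.range θ) ↔ f ∈ Ideal.span (Set.range F)) := by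
    intro y f hf hy
    have := c3_mem hF Set.univ y f hf hy
    rwa [Set.image_univ, c3idx_univ] at this
  have hjac := c3_jac_inv h hF
  have hu : c3cls F (jac F) hjac ∉ Ideal.span (Set.range θ) := fun h1 =>
    hp.jac_notMem ((hall _ _ hjac rfl).1 h1)
  have hsm : ∀ {a : 𝕜}, a ≠ 0 → a • jac F ∉ Ideal.span (Set.range F) := by
    intro a ha h1
    apply hp.jac_notMem
    have := Ideal.mul_mem_left _ (C a⁻¹) h1
    rwa [← smul_eq_C_mul, smul_smul, inv_mul_cancel₀ ha, one_smul] at this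
  refine ⟨θ, fun _ => 2, 7 * n, fun k => ⟨by norm_num, ?_⟩, ⟨⟨?_⟩, ?_⟩, ?_,
    ⟨c3cls F (jac F) hjac, ?_, hu⟩, ?_, c3cls F (jac F) hjac, ?_⟩
  · exact mem_invGr.2 ⟨_, hF.hom _, fun g => hF.inv g _, rfl⟩
  · intro i hi
    rw [List.length_ofFn] at hi
    have e1 : Ideal.ofList ((List.ofFn θ).take i) = Ideal.span (θ '' {k | k.1 < i}) := by
      unfold Ideal.ofList
      refine congrArg Ideal.span ?_
      ext y
      simp only [Set.mem_ofPred_eq, List.mem_take_iff_getElem, List.getElem_ofFn, Set.mem_image,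
        List.length_ofFn]
      constructor
      · rintro ⟨j, hj, rfl⟩
        exact ⟨⟨j, by omega⟩, by simp only; omega, rfl⟩
      · rintro ⟨k, hk, rfl⟩
        exact ⟨k.1, by have := k.2; omega, rfl⟩
    rw [d1_weak_iff, e1, List.getElem_ofFn]
    intro y hy
    obtain ⟨f, hf, rfl⟩ := c3_exists_cls y
    rw [c3_mem hF _ _ f hf rfl]
    rw [c3_mem hF _ _ (F (.inr ⟨i, hi⟩) * f) (fun g => by rw [map_mul, hF.inv, hf]) rfl] at hy
    refine hp.reg _ _ ?_ f hy
    rintro (⟨l, hl⟩ | ⟨k, hk, hk'⟩)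
    · cases hl
    · cases hk'
      exact lt_irrefl i hk
  · intro h1
    apply hu
    have e1 : Ideal.ofList (List.ofFn θ) = Ideal.span (Set.range θ) := by
      unfold Ideal.ofList
      refine congrArg Ideal.span ?_
      ext y
      simp [List.mem_ofFn]
    rw [c3_smul_top, e1] at h1
    rw [← h1]
    exact Submodule.mem_top
  · simp only [Finset.sum_const, Finset.card_univ, Fintype.card_fin, smul_eq_mul]
    omega
  · refine mem_invGr.2 ⟨_, ?_, hjac, rfl⟩
    have := c3_jac_hom hF.toOctics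
    rwa [hn, show 7 * (4 * n) = 4 * (7 * n) by ring] at this
  · intro m hm x hx
    obtain ⟨f, hf1, hf2, hf3⟩ := mem_invGr.1 hx
    exact (hall x f hf2 hf3).2 (hp.top _ (by omega) f hf1)
  · intro y hy
    obtain ⟨f, hf, rfl⟩ := c3_exists_cls y
    have hfin : ∀ a : 𝕜, f - a • jac F ∈ Ideal.span (Set.range F) →
        c3cls F f hf - a • c3cls F (jac F) hjac ∈ Ideal.span (Set.range θ) := fun a ha =>
      (hall _ (f - a • jac F) (fun g => by rw [map_sub, map_smul, hf, hjac]) rfl).2 ha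
    by_cases hfJ : f ∈ Ideal.span (Set.range F)
    · exact ⟨0, hfin 0 (by rwa [zero_smul, sub_zero])⟩
    obtain ⟨k, z, a, hz, ha, hza⟩ := c3_exists_mult hp hfJ
    have h1 := c3rey_mem hF hza
    rw [c3rey_sub, c3rey_mul z hf, c3rey_fix (u := a • jac F)
      (fun g => by rw [map_smul, hjac])] at h1
    have hw := c3rey_hom (ρ := ρ) hz
    have hwi := c3rey_inv (ρ := ρ) z
    set w := c3rey ρ z
    have hwf : w * f ∉ Ideal.span (Set.range F) := fun h2 => hsm ha (by
      have := Ideal.sub_mem _ h2 h1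
      rwa [sub_sub_cancel] at this)
    have hw0 : w ≠ 0 := fun h2 => hwf (by rw [h2, zero_mul]; exact Ideal.zero_mem _)
    obtain ⟨m, rfl⟩ : 4 ∣ k := by
      have h2 := hwi g₀
      rw [hg₀, c3_act_scalar hw] at h2
      have h3 : (ζ ^ k - 1) • w = 0 := by rw [sub_smul, h2, one_smul, sub_self]
      exact (hζ.pow_eq_one_iff_dvd _).1
        (sub_eq_zero.1 ((smul_eq_zero.1 h3).resolve_right hw0))
    rcases Nat.eq_zero_or_pos m with rfl | hm
    · have h2 : w = C (w.coeff 0) :=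
        totalDegree_eq_zero_iff_eq_C.1 ((totalDegree_zero_iff_isHomogeneous _).2 hw)
      have hb : w.coeff 0 ≠ 0 := fun h3 => hw0 (by rw [h2, h3, map_zero])
      refine ⟨(w.coeff 0)⁻¹ * a, hfin _ ?_⟩
      have := Ideal.mul_mem_left _ (C (w.coeff 0)⁻¹) h1
      rw [h2, mul_sub, ← mul_assoc, ← map_mul, coeff_zero_C, inv_mul_cancel₀ hb, map_one, one_mul,
        ← smul_eq_C_mul, smul_smul] at this
      exact this
    · exfalso
      have h2 := hy m hm (c3cls F w hwi) (mem_invGr.2 ⟨w, hw, hwi, rfl⟩)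
      exact hwf ((hall _ (w * f) (fun g => by rw [map_mul, hwi, hf]) rfl).1 h2)

end Pool.Agent.Lib.MP_954e53_ag.Gen
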