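import Pool.Agent.Lib.MP_954e53_ag.All.Sum
import Pool.Agent.Lib.MP_954e53_ag.All.Index

/-! Data for every index and every large dimension in one class modulo seven. -/

namespace Pool.Agent.Lib.MP_954e53_ag.All

open MvPolynomial

universe v

lemma exists_data_aux {u : ℕ} (hu : u = 17) (k : Type v) [Field k] [IsAlgClosed k] [CharZero k]
    (r : ℕ) (hr : 1 ≤ r) : ∃ d₀, ∀ d, d₀ ≤ d → d ≡ 4 * r [MOD 7] →
    ∃ (c : ℕ) (G : Type) (_ : Group G) (_ : Finite G)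
      (ρ : G →* Matrix (Fin c ⊕ Fin d) (Fin c ⊕ Fin d) k)
      (F : Fin c ⊕ Fin d → MvPolynomial (Fin c ⊕ Fin d) k),
      IsPGroup 2 G ∧ 2 ≤ d ∧ d = 7 * c + 4 * r ∧ Gen.GroupData ρ c ∧ Gen.CIData ρ F := by
  obtain ⟨c₀, h⟩ := exists_group hu r hr
  refine ⟨7 * c₀ + 4 * r, fun d hd hmod => ?_⟩
  obtain ⟨c, rfl⟩ : ∃ c, d = 7 * c + 4 * r := ⟨(d - 4 * r) / 7, by unfold Nat.ModEq at hmod; omega⟩
  obtain ⟨G, _, _, ρ, h8, hG⟩ := h c (by omega)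
  obtain ⟨F, hF⟩ := exists_ciData hG
  obtain ⟨g, hg⟩ := hG.scalar
  obtain ⟨ρ', F', h'⟩ := Gen.transfer k (ρ := ρ) (F := F)
    ⟨⟨g, _, Complex.isPrimitiveRoot_I, hg⟩, hG.quartic, hG.det, hG.fano⟩
    ⟨⟨hF.hom, hF.hsop, hF.smooth⟩, hF.inv, hF.stab⟩
  exact ⟨c, G, inferInstance, inferInstance, ρ', F', fun g => ⟨3, h8 g⟩, by omega, rfl, h'⟩

theorem exists_data (k : Type v) [Field k] [IsAlgClosed k] [CharZero k]
    (r : ℕ) (hr : 1 ≤ r) : ∃ d₀, ∀ d, d₀ ≤ d → d ≡ 4 * r [MOD 7] →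
    ∃ (c : ℕ) (G : Type) (_ : Group G) (_ : Finite G)
      (ρ : G →* Matrix (Fin c ⊕ Fin d) (Fin c ⊕ Fin d) k)
      (F : Fin c ⊕ Fin d → MvPolynomial (Fin c ⊕ Fin d) k),
      IsPGroup 2 G ∧ 2 ≤ d ∧ d = 7 * c + 4 * r ∧ Gen.GroupData ρ c ∧ Gen.CIData ρ F :=
  exists_data_aux rfl k r hr

end Pool.Agent.Lib.MP_954e53_ag.All
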