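import Pool.Agent.Lib.MP_954e53_ag.CexGroup
import Pool.Agent.Lib.MP_954e53_ag.H89Cone

/-! Direct sums of linear groups without invariant quartics. -/

namespace Pool.Agent.Lib.MP_954e53_ag.All

open MvPolynomial Finset

/-- A group of exponent eight without invariant quartics whose bad eigenspaces have dimension at
most `c`. -/
structure PD {ι G : Type} [Fintype ι] [DecidableEq ι] [Group G] (ρ : G →* Matrix ι ι ℂ)
    (c : ℕ) : Prop where
  scalar : ∃ g, ρ g = Complex.I • (1 : Matrix ι ι ℂ)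
  quartic : ∀ f : MvPolynomial ι ℂ, f.IsHomogeneous 4 → (∀ g, act (ρ g) f = f) → f = 0
  det : ∀ g, (ρ g).det = 1
  octic : ∀ y : ι → ℂ, y ≠ 0 →
    ∃ f : MvPolynomial ι ℂ, f.IsHomogeneous 8 ∧ (∀ g, act (ρ g) f = f) ∧ eval y f ≠ 0
  eigen : ∀ (g : G) (z : ℂ), z ^ 4 ≠ 1 →
    Module.finrank ℂ (Module.End.eigenspace (Matrix.toLin' (ρ g)) z) ≤ c
  expo : ∀ g : G, g ^ 8 = 1

section sum

variable {ι κ G H : Type} [Fintype ι] [DecidableEq ι] [Fintype κ] [DecidableEq κ] [Group G]
  [Group H]

/-- The direct sum. -/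
noncomputable def sumRep (ρ : G →* Matrix ι ι ℂ) (σ : H →* Matrix κ κ ℂ) :
    G × H →* Matrix (ι ⊕ κ) (ι ⊕ κ) ℂ where
  toFun g := Matrix.fromBlocks (ρ g.1) 0 0 (σ g.2)
  map_one' := by simp
  map_mul' g h := by simp [Matrix.fromBlocks_multiply]

lemma sumRep_apply (ρ : G →* Matrix ι ι ℂ) (σ : H →* Matrix κ κ ℂ) (g : G × H) :
    sumRep ρ σ g = Matrix.fromBlocks (ρ g.1) 0 0 (σ g.2) := rfl

lemma sumRep_mulVec (ρ : G →* Matrix ι ι ℂ) (σ : H →* Matrix κ κ ℂ) (g : G × H)
    (y : ι ⊕ κ → ℂ) : (sumRep ρ σ g).mulVec y =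
      Sum.elim ((ρ g.1).mulVec (y ∘ Sum.inl)) ((σ g.2).mulVec (y ∘ Sum.inr)) := by
  rw [sumRep_apply, Matrix.fromBlocks_mulVec]
  simp

omit [Fintype ι] [DecidableEq ι] [Fintype κ] [DecidableEq κ] in
lemma eval_kill {e : ι → κ} (he : Function.Injective e) (y : ι → ℂ) (w : κ → ℂ)
    (h1 : ∀ i, w (e i) = y i) (h2 : ∀ j, j ∉ Set.range e → w j = 0) (f : MvPolynomial κ ℂ) :
    eval y (killCompl he f) = eval w f := by
  induction f using MvPolynomial.induction_on with
  | C a => rw [killCompl_C, eval_C, eval_C]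
  | add p q hp hq => simp only [map_add, hp, hq]
  | mul_X p j hp =>
    rw [map_mul, map_mul, map_mul, hp, eval_X]
    congr 1
    by_cases hj : j ∈ Set.range e
    · obtain ⟨i, rfl⟩ := hj
      rw [← rename_X (R := ℂ) e i, killCompl_rename_app, eval_X, h1]
    · rw [killCompl, aeval_X, dif_neg hj, map_zero, h2 j hj]

omit [Fintype ι] [DecidableEq ι] [Fintype κ] [DecidableEq κ] in
lemma kill_hom {e : ι → κ} (he : Function.Injective e) {f : MvPolynomial κ ℂ} {n : ℕ}
    (hf : f.IsHomogeneous n) : (killCompl he f).IsHomogeneous n := by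
  intro s hs
  rw [coeff_killCompl] at hs
  have h1 : (s.mapDomain e).degree = n := by
    rw [Finsupp.degree_eq_weight_one]
    exact hf hs
  have h2 : s.degree = n := by rw [← h1, Finsupp.degree_mapDomain]
  rw [Finsupp.degree_eq_weight_one] at h2
  exact h2

theorem PD.sum {ρ : G →* Matrix ι ι ℂ} {σ : H →* Matrix κ κ ℂ} {a b : ℕ} (h : PD ρ a)
    (k : PD σ b) : PD (sumRep ρ σ) (a + b) := by
  obtain ⟨g0, hg0⟩ := h.scalar
  obtain ⟨h0, hh0⟩ := k.scalar
  refine ⟨⟨(g0, h0), ?_⟩, fun f hf hinv => ?_, fun g => ?_, fun y hy => ?_, fun g z hz => ?_,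
    fun g => Prod.ext (h.expo g.1) (k.expo g.2)⟩
  · rw [sumRep_apply, hg0, hh0, ← Matrix.fromBlocks_one, Matrix.fromBlocks_smul]
    simp
  · have f1 : killCompl (Sum.inl_injective (α := ι) (β := κ)) f = 0 := by
      refine h.quartic _ (kill_hom _ hf) fun g => MvPolynomial.funext fun y => ?_
      rw [eval_act, eval_kill Sum.inl_injective ((ρ g).mulVec y) (Sum.elim ((ρ g).mulVec y) 0) (fun _ => rfl)
        (by rintro (j | j) hj; exacts [absurd ⟨j, rfl⟩ hj, rfl]),
        eval_kill Sum.inl_injective y (Sum.elim y 0) (fun _ => rfl)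
        (by rintro (j | j) hj; exacts [absurd ⟨j, rfl⟩ hj, rfl])]
      conv_rhs => rw [← hinv (g, 1), eval_act, sumRep_mulVec]
      simp
    have f2 : killCompl (Sum.inr_injective (α := ι) (β := κ)) f = 0 := by
      refine k.quartic _ (kill_hom _ hf) fun g => MvPolynomial.funext fun y => ?_
      rw [eval_act, eval_kill Sum.inr_injective ((σ g).mulVec y) (Sum.elim 0 ((σ g).mulVec y)) (fun _ => rfl)
        (by rintro (j | j) hj; exacts [rfl, absurd ⟨j, rfl⟩ hj]),
        eval_kill Sum.inr_injective y (Sum.elim 0 y) (fun _ => rfl)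
        (by rintro (j | j) hj; exacts [rfl, absurd ⟨j, rfl⟩ hj])]
      conv_rhs => rw [← hinv (1, g), eval_act, sumRep_mulVec]
      simp
    by_contra hne
    obtain ⟨n, hn⟩ := ne_zero_iff.1 hne
    have hdeg : ∑ i, n (.inl i) + ∑ j, n (.inr j) = 4 := by
      rw [← Fintype.sum_sum_type n, ← Finsupp.degree_eq_sum, Finsupp.degree_eq_weight_one]
      exact hf hn
    have h1 := prod_eq_one_of_act (M := sumRep ρ σ (g0, 1)) (π := 1)
      (z := Sum.elim (fun _ => Complex.I) fun _ => 1) (by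
        rw [sumRep_apply, hg0, map_one]
        rintro (i | i) (j | j) <;> simp [Matrix.one_apply, eq_comm]) (hinv _) hn fun _ => rfl
    simp only [Fintype.prod_sum_type, Sum.elim_inl, Sum.elim_inr, one_pow, prod_const_one, mul_one,
      prod_pow_eq_pow_sum] at h1
    have h2 := (Complex.isPrimitiveRoot_I.pow_eq_one_iff_dvd _).1 h1
    have h3 : ∑ i, n (.inl i) = 0 ∨ ∑ j, n (.inr j) = 0 := by omega
    rcases h3 with h3 | h3
    · rw [sum_eq_zero_iff] at h3
      have h4 : (n.comapDomain Sum.inr Sum.inr_injective.injOn).mapDomain Sum.inr = n :=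
        Finsupp.mapDomain_comapDomain _ Sum.inr_injective n (by
          rintro (i | i) hi
          · exact absurd (h3 i (mem_univ i)) (Finsupp.mem_support_iff.1 hi)
          · exact ⟨i, rfl⟩)
      rw [← h4, ← coeff_killCompl Sum.inr_injective, f2] at hn
      exact hn (coeff_zero _)
    · rw [sum_eq_zero_iff] at h3
      have h4 : (n.comapDomain Sum.inl Sum.inl_injective.injOn).mapDomain Sum.inl = n :=
        Finsupp.mapDomain_comapDomain _ Sum.inl_injective n (by
          rintro (i | i) hi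
          · exact ⟨i, rfl⟩
          · exact absurd (h3 i (mem_univ i)) (Finsupp.mem_support_iff.1 hi))
      rw [← h4, ← coeff_killCompl Sum.inl_injective, f1] at hn
      exact hn (coeff_zero _)
  · rw [sumRep_apply, Matrix.det_fromBlocks_zero₂₁, h.det, k.det, mul_one]
  · by_cases h1 : y ∘ Sum.inl = 0
    · have h2 : y ∘ Sum.inr ≠ 0 := fun h2 => hy (funext fun i => by
        rcases i with i | i
        exacts [congrFun h1 i, congrFun h2 i])
      obtain ⟨f, f1, f2, f3⟩ := k.octic _ h2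
      refine ⟨rename Sum.inr f, f1.rename_isHomogeneous, fun g => MvPolynomial.funext fun w => ?_,
        by rwa [eval_rename]⟩
      rw [eval_act, eval_rename, eval_rename, sumRep_mulVec, Sum.elim_comp_inr, ← eval_act, f2]
    · obtain ⟨f, f1, f2, f3⟩ := h.octic _ h1
      refine ⟨rename Sum.inl f, f1.rename_isHomogeneous, fun g => MvPolynomial.funext fun w => ?_,
        by rwa [eval_rename]⟩
      rw [eval_act, eval_rename, eval_rename, sumRep_mulVec, Sum.elim_comp_inl, ← eval_act, f2]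
  · refine le_trans ?_ (add_le_add (h.eigen g.1 z hz) (k.eigen g.2 z hz))
    have key : ∀ v : Module.End.eigenspace (Matrix.toLin' (sumRep ρ σ g)) z,
        (ρ g.1).mulVec (v.1 ∘ Sum.inl) = z • (v.1 ∘ Sum.inl) ∧
          (σ g.2).mulVec (v.1 ∘ Sum.inr) = z • (v.1 ∘ Sum.inr) := fun v => by
      have hv := v.2
      rw [Module.End.mem_eigenspace_iff, Matrix.toLin'_apply, sumRep_mulVec] at hv
      exact ⟨funext fun i => congrFun hv (.inl i), funext fun i => congrFun hv (.inr i)⟩
    let T : Module.End.eigenspace (Matrix.toLin' (sumRep ρ σ g)) z →ₗ[ℂ]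
        (Module.End.eigenspace (Matrix.toLin' (ρ g.1)) z ×
          Module.End.eigenspace (Matrix.toLin' (σ g.2)) z) :=
      { toFun := fun v => (⟨v.1 ∘ Sum.inl, by
          rw [Module.End.mem_eigenspace_iff, Matrix.toLin'_apply]; exact (key v).1⟩,
          ⟨v.1 ∘ Sum.inr, by
          rw [Module.End.mem_eigenspace_iff, Matrix.toLin'_apply]; exact (key v).2⟩)
        map_add' := fun _ _ => rfl
        map_smul' := fun _ _ => rfl }
    have hT : Function.Injective T := by
      intro v w hvw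
      refine Subtype.ext (funext fun p => ?_)
      rcases p with p | p
      · exact congrFun (congrArg Subtype.val (congrArg Prod.fst hvw)) p
      · exact congrFun (congrArg Subtype.val (congrArg Prod.snd hvw)) p
    rw [← Module.finrank_prod]
    exact LinearMap.finrank_le_finrank_of_injective hT

end sum

/-- The diagonal group of determinant one and exponent eight. -/
def diagGrp (M : ℕ) : Subgroup (Multiplicative (Fin M → ZMod 8)) where
  carrier := {a | ∑ i, a.toAdd i = 0}
  one_mem' := by simp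
  mul_mem' {a b} ha hb := by
    simp only [Set.mem_ofPred_eq, toAdd_mul, Pi.add_apply, sum_add_distrib] at ha hb ⊢
    rw [ha, hb, add_zero]
  inv_mem' {a} ha := by
    simp only [Set.mem_ofPred_eq, toAdd_inv, Pi.neg_apply, sum_neg_distrib] at ha ⊢
    rw [ha, neg_zero]

/-- Its representation. -/
noncomputable def diagRep (M : ℕ) : diagGrp M →* Matrix (Fin M) (Fin M) ℂ where
  toFun a := Matrix.diagonal fun i => psi (a.1.toAdd i)
  map_one' := by simp
  map_mul' a b := by
    rw [Matrix.diagonal_mul_diagonal]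
    congr 1
    funext i
    exact AddChar.map_add_eq_mul _ _ _

theorem pd_diag {m : ℕ} (hm : 2 ≤ m) : PD (diagRep (4 * m)) (4 * m) := by
  have ent : ∀ (a : diagGrp (4 * m)) i j, diagRep (4 * m) a i j =
      if j = (1 : Equiv.Perm (Fin (4 * m))) i then psi (a.1.toAdd i) else 0 := fun a i j => by
    show Matrix.diagonal _ i j = _
    simp [Matrix.diagonal_apply, eq_comm]
  refine ⟨⟨⟨Multiplicative.ofAdd fun _ => 2, ?_⟩, ?_⟩, fun f hf hinv => ?_, fun g => ?_,
    fun y hy => ?_, fun g z _ => ?_, fun g => ?_⟩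
  · show ∑ _i : Fin (4 * m), (2 : ZMod 8) = 0
    rw [Finset.sum_const, card_univ, Fintype.card_fin, nsmul_eq_mul, Nat.cast_mul, mul_right_comm,
      show ((4 : ℕ) : ZMod 8) * 2 = 0 from rfl, zero_mul]
  · ext i j
    rw [ent]
    simp [Matrix.one_apply, eq_comm, psi_two]
  · by_contra hne
    obtain ⟨n, hn⟩ := ne_zero_iff.1 hne
    have hdeg : ∑ i, n i = 4 := by
      rw [← Finsupp.degree_eq_sum, Finsupp.degree_eq_weight_one]
      exact hf hn
    have hle : ∀ i, n i ≤ 4 := fun i =>
      (single_le_sum (f := fun i => n i) (fun _ _ => Nat.zero_le _) (mem_univ i)).trans hdeg.le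
    have heq : ∀ i j, n i = n j := fun i j => by
      have h1 := prod_eq_one_of_act (ent ⟨Multiplicative.ofAdd (Pi.single i 1 - Pi.single j 1), by
        show ∑ l, (Pi.single i 1 - Pi.single j 1 : Fin (4 * m) → ZMod 8) l = 0
        simp [sum_sub_distrib]⟩) (hinv _) hn fun _ => rfl
      simp only [psi_pow] at h1
      rw [← psi_sum] at h1
      have h2 := psi_eq_one h1
      simp only [toAdd_ofAdd, Pi.sub_apply, mul_sub, sum_sub_distrib, Pi.single_apply, mul_ite,
        mul_one, mul_zero, sum_ite_eq', mem_univ, if_true] at h2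
      have h3 : ∀ a : ℕ, a ≤ 4 → ∀ b : ℕ, b ≤ 4 → (a : ZMod 8) - b = 0 → a = b := by decide
      exact h3 _ (hle i) _ (hle j) h2
    have i0 : Fin (4 * m) := ⟨0, by omega⟩
    rw [sum_congr rfl fun i _ => heq i i0, Finset.sum_const, card_univ, Fintype.card_fin,
      smul_eq_mul] at hdeg
    rcases Nat.eq_zero_or_pos (n i0) with h | h
    · rw [h] at hdeg; omega
    · have := Nat.mul_le_mul_left (4 * m) h
      omega
  · show (Matrix.diagonal _).det = 1
    rw [Matrix.det_diagonal, ← psi_sum, show ∑ i, g.1.toAdd i = 0 from g.2,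
      AddChar.map_zero_eq_one]
  · obtain ⟨i, hi⟩ := Function.ne_iff.1 hy
    refine ⟨X i ^ 8, isHomogeneous_X_pow i 8, fun g => MvPolynomial.funext fun w => ?_, by
      simpa using hi⟩
    rw [eval_act, map_pow, map_pow, eval_X, eval_X]
    show (Matrix.diagonal _).mulVec w i ^ 8 = _
    rw [Matrix.mulVec_diagonal, mul_pow, psi_pow_eight, one_mul]
  · exact (Submodule.finrank_le _).trans (by simp)
  · refine Subtype.ext (Multiplicative.toAdd.injective (funext fun i => ?_))
    have h : ∀ x : ZMod 8, 8 • x = 0 := by decide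
    exact h _

/-- Any number of copies of the large block, and one diagonal block. -/
theorem exists_pd {u : ℕ} (hu : u = 17) {m : ℕ} (hm : 2 ≤ m) (k : ℕ) :
    ∃ (ι G : Type) (_ : Fintype ι) (_ : DecidableEq ι) (_ : Group G) (_ : Finite G)
      (ρ : G →* Matrix ι ι ℂ), Fintype.card ι = k * (8 * 2 ^ u) + 4 * m ∧
      PD ρ (k * (2 ^ u - 1) + 4 * m) := by
  induction k with
  | zero =>
    exact ⟨_, _, inferInstance, inferInstance, inferInstance, inferInstance, diagRep (4 * m),
      by simp, by simpa using pd_diag hm⟩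
  | succ k ih =>
    obtain ⟨ι, G, _, _, _, _, ρ, h1, h2⟩ := ih
    obtain ⟨φ, hφ⟩ := exists_rep hu
    have h3 : PD (rep φ) (2 ^ u - 1) :=
      ⟨hφ.scalar, hφ.quartic, hφ.det, hφ.octic, hφ.eigen, Gen.grp_pow_eight⟩
    refine ⟨_, _, inferInstance, inferInstance, inferInstance, inferInstance, sumRep (rep φ) ρ, ?_,
      by rw [add_mul, one_mul, add_right_comm, add_comm]; exact h3.sum h2⟩
    rw [Fintype.card_sum, h1, Fintype.card_prod, Fintype.card_prod, Fintype.card_fun,
      Fintype.card_bool, Fintype.card_fin, Fintype.card_fin]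
    ring

/-- Every index and every large codimension. -/
theorem exists_group {u : ℕ} (hu : u = 17) (r : ℕ) (hr : 1 ≤ r) : ∃ c₀, ∀ c, c₀ ≤ c →
    ∃ (G : Type) (_ : Group G) (_ : Finite G)
      (ρ : G →* Matrix (Fin c ⊕ Fin (7 * c + 4 * r)) (Fin c ⊕ Fin (7 * c + 4 * r)) ℂ),
      (∀ g : G, g ^ 8 = 1) ∧ GroupData ρ c := by
  have hpos : 0 < 2 ^ u := Nat.two_pow_pos u
  refine ⟨2 ^ u * (8 * 2 ^ u + 9 + r), fun c hc => ?_⟩
  generalize hP : 2 ^ u = P at hpos hc
  have h1 := Nat.div_add_mod (2 * c + r - 2) (2 * P)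
  have h2 := Nat.mod_lt (2 * c + r - 2) (show 0 < 2 * P by omega)
  have h0 : 8 * P + 9 + r ≤ c := (Nat.le_mul_of_pos_left _ hpos).trans hc
  have h3 : 8 * P + 8 + r ≤ (2 * c + r - 2) / (2 * P) := by
    rw [Nat.le_div_iff_mul_le (by omega)]
    have : (8 * P + 8 + r) * (2 * P) + 2 * P = 2 * (P * (8 * P + 9 + r)) := by ring
    omega
  generalize (2 * c + r - 2) / (2 * P) = k at h1 h3
  generalize (2 * c + r - 2) % (2 * P) = t at h1 h2
  obtain ⟨ι, G, _, _, _, _, ρ, k1, k2⟩ := exists_pd hu (m := t + 2) (by omega) k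
  rw [hP] at k1 k2
  have e1 : k * (8 * P) = 8 * (k * P) := by ring
  have e2 : 2 * P * k = 2 * (k * P) := by ring
  have e3 : k * (P - 1) + k = k * P := by
    rw [← Nat.mul_succ, Nat.succ_eq_add_one, Nat.sub_add_cancel hpos]
  have hG : GroupData ρ c := ⟨k2.scalar, k2.quartic, k2.det, k2.octic,
    fun g z hz => (k2.eigen g z hz).trans (by omega), by omega⟩
  obtain ⟨ρ', h'⟩ := hG.reindex (ι' := Fin c ⊕ Fin (7 * c + 4 * r)) (Fintype.equivOfCardEq (by
    rw [k1, Fintype.card_sum, Fintype.card_fin, Fintype.card_fin]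
    omega))
  exact ⟨G, inferInstance, inferInstance, ρ', k2.expo, h'⟩

end Pool.Agent.Lib.MP_954e53_ag.All
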